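import Pool.Agent.Helper190_Proj.Defs
import Mathlib.RingTheory.GradedAlgebra.TensorProduct

set_option linter.unusedSimpArgs false
set_option linter.unusedSectionVars false
set_option linter.unusedVariables false
set_option linter.style.haveILetI false

open Module CategoryTheory TensorProduct

noncomputable section

namespace Pool.Agent.Helper190_Proj

/-! ### composition -/

section
variable {R S T : Type} [CommRing R] [CommRing S] [CommRing T] {f : R →+* S} {g : S →+* T}

lemma IsBC.trans {X : GrAlg R} {Y : GrAlg S} {Z : GrAlg T} (h : IsBC f X Y) (h' : IsBC g Y Z) :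
    IsBC (g.comp f) X Z := by
  obtain ⟨Φ, hΦ, hp⟩ := h
  obtain ⟨Ψ, hΨ, hp'⟩ := h'
  exact ⟨Ψ.comp Φ, fun n x hx => hΨ n _ (hΦ n x hx), hp.paste_vert hp'⟩

lemma isBC_refl (X : GrAlg R) : IsBC (RingHom.id R) X X :=
  ⟨RingHom.id _, fun n x hx => hx, IsPushout.id_vert (CommRingCat.ofHom (algebraMap R X.A))⟩

end

/-- a graded injection reflects homogeneous elements -/
lemma mem_of_graded {S A B : Type} [CommRing S] [CommRing A] [CommRing B] [Algebra S A]
    [Algebra S B] (𝒜 : ℕ → Submodule S A) (ℬ : ℕ → Submodule S B) [GradedAlgebra 𝒜]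
    [GradedAlgebra ℬ] (E : A →+ B) (hinj : Function.Injective E)
    (hE : ∀ n x, x ∈ 𝒜 n → E x ∈ ℬ n) {n : ℕ} {x : A} (hx : E x ∈ ℬ n) : x ∈ 𝒜 n := by
  have key : ∀ (m : ℕ) (x : A), ((DirectSum.decompose ℬ (E x) m : ℬ m) : B) =
      E ((DirectSum.decompose 𝒜 x m : 𝒜 m) : A) := by
    intro m x
    refine DirectSum.Decomposition.inductionOn 𝒜 (motive := fun x =>
      ((DirectSum.decompose ℬ (E x) m : ℬ m) : B) =
        E ((DirectSum.decompose 𝒜 x m : 𝒜 m) : A)) ?_ ?_ ?_ x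
    · simp
    · intro i a
      by_cases him : i = m
      · subst him
        rw [DirectSum.decompose_of_mem_same ℬ (hE _ _ a.2),
          DirectSum.decompose_of_mem_same 𝒜 a.2]
      · rw [DirectSum.decompose_of_mem_ne ℬ (hE _ _ a.2) him,
          DirectSum.decompose_of_mem_ne 𝒜 a.2 him, map_zero]
    · intro a b ha hb
      rw [map_add, DirectSum.decompose_add, DirectSum.decompose_add, DirectSum.add_apply,
        DirectSum.add_apply, Submodule.coe_add, Submodule.coe_add, ha, hb, map_add]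
  have h1 : x = ((DirectSum.decompose 𝒜 x n : 𝒜 n) : A) := by
    apply hinj
    rw [← key, DirectSum.decompose_of_mem_same ℬ hx]
  rw [h1]
  exact (DirectSum.decompose 𝒜 x n).2

section
variable {R S : Type} [CommRing R] [CommRing S] [Algebra R S]

/-- the map from the module to the base change of a graded piece -/
def toBC (X : GrAlg R) (n : ℕ) : (S ⊗[R] X.gr n) →ₗ[S] (S ⊗[R] X.A) :=
  (X.gr n).subtype.baseChange S

lemma toBC_inj (X : GrAlg R) (n : ℕ) : Function.Injective (toBC (S := S) X n) := by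
  let inc : X.gr n →ₗ[R] X.A := (X.gr n).subtype
  let pr : X.A →ₗ[R] X.gr n := (DirectSum.component R ℕ (fun n => X.gr n) n).comp
    (DirectSum.decomposeLinearEquiv X.gr).toLinearMap
  have h1 : pr.comp inc = LinearMap.id := by
    refine LinearMap.ext fun x => ?_
    change (DirectSum.decompose X.gr (x : X.A)) n = x
    rw [DirectSum.decompose_coe, DirectSum.of_eq_same]
  have h3 : (pr.baseChange S).comp (inc.baseChange S) = LinearMap.id := by
    rw [← LinearMap.baseChange_comp, h1, LinearMap.baseChange_id]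
  exact Function.LeftInverse.injective (g := pr.baseChange S)
    fun x => LinearMap.congr_fun h3 x

lemma toBC_range (X : GrAlg R) (n : ℕ) :
    LinearMap.range (toBC (S := S) X n) = (X.gr n).baseChange S := rfl

/-- the graded pieces of the base change -/
def bcEquiv (X : GrAlg R) (n : ℕ) : (S ⊗[R] X.gr n) ≃ₗ[S] ((X.gr n).baseChange S) :=
  LinearEquiv.ofInjective (toBC X n) (toBC_inj X n)

/-- base change of a graded algebra -/
def GrAlg.bc (X : GrAlg R) (S : Type) [CommRing S] [Algebra R S] : GrAlg S where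
  A := S ⊗[R] X.A
  gr n := (X.gr n).baseChange S
  proj n := Module.Projective.of_equiv (bcEquiv X n)
  finite n := Module.Finite.equiv (bcEquiv X n)

theorem isBC_bc (X : GrAlg R) (S : Type) [CommRing S] [Algebra R S] :
    IsBC (algebraMap R S) X (X.bc S) := by
  refine ⟨(Algebra.TensorProduct.includeRight : X.A →ₐ[R] S ⊗[R] X.A).toRingHom, ?_, ?_⟩
  · intro n x hx
    exact Submodule.tmul_mem_baseChange_of_mem _ hx
  · exact (CommRingCat.isPushout_tensorProduct R S X.A).flip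

/-- comparison with the tensor product -/
theorem exists_equiv {X : GrAlg R} {Y : GrAlg S} {Φ : X.A →+* Y.A}
    (hΦ : ∀ n, ∀ x ∈ X.gr n, Φ x ∈ Y.gr n)
    (hp : IsPushout (CommRingCat.ofHom (algebraMap R X.A)) (CommRingCat.ofHom (algebraMap R S))
      (CommRingCat.ofHom Φ) (CommRingCat.ofHom (algebraMap S Y.A))) :
    ∃ E : (S ⊗[R] X.A) ≃ₐ[S] Y.A, (∀ a, E (1 ⊗ₜ a) = Φ a) ∧
      ∀ n x, x ∈ (X.gr n).baseChange S ↔ E x ∈ Y.gr n := by
  let hq := (CommRingCat.isPushout_tensorProduct R S X.A).flip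
  let e : (S ⊗[R] X.A) ≃+* Y.A := (hq.isoIsPushout _ _ hp).commRingCatIsoToRingEquiv
  have e1 : ∀ s : S, e (s ⊗ₜ 1) = algebraMap S Y.A s := fun s =>
    congr($(hq.inr_isoIsPushout_hom _ _ hp).hom s)
  have e2 : ∀ x : X.A, e (1 ⊗ₜ x) = Φ x := fun x =>
    congr($(hq.inl_isoIsPushout_hom _ _ hp).hom x)
  let E : (S ⊗[R] X.A) ≃ₐ[S] Y.A := AlgEquiv.ofRingEquiv (f := e) e1
  have hE1 : ∀ n x, x ∈ (X.gr n).baseChange S → E x ∈ Y.gr n := by
    intro n x hx
    rw [Submodule.baseChange_eq_span] at hx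
    refine Submodule.span_induction (p := fun x _ => E x ∈ Y.gr n) ?_ ?_ ?_ ?_ hx
    · rintro _ ⟨a, ha, rfl⟩
      change e (1 ⊗ₜ a) ∈ Y.gr n
      rw [e2]
      exact hΦ n a ha
    · rw [map_zero]; exact Submodule.zero_mem _
    · intro a b _ _ ha hb
      rw [map_add]; exact Submodule.add_mem _ ha hb
    · intro s a _ ha
      rw [map_smul]; exact Submodule.smul_mem _ _ ha
  exact ⟨E, e2, fun n x => ⟨hE1 n x, fun hx => mem_of_graded (fun n => (X.gr n).baseChange S) Y.gr
    (E : (S ⊗[R] X.A) →+ Y.A) E.injective hE1 hx⟩⟩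

/-- the converse -/
theorem isBC_of_equiv {X : GrAlg R} {Y : GrAlg S} (E : (S ⊗[R] X.A) ≃ₐ[S] Y.A)
    (hE : ∀ n x, x ∈ (X.gr n).baseChange S → E x ∈ Y.gr n) : IsBC (algebraMap R S) X Y := by
  refine ⟨(E : (S ⊗[R] X.A) →+* Y.A).comp
    (Algebra.TensorProduct.includeRight : X.A →ₐ[R] S ⊗[R] X.A).toRingHom, fun n x hx =>
      hE n _ (Submodule.tmul_mem_baseChange_of_mem _ hx), ?_⟩
  refine (CommRingCat.isPushout_tensorProduct R S X.A).flip.of_iso (Iso.refl _) (Iso.refl _)
    (Iso.refl _) E.toRingEquiv.toCommRingCatIso ?_ ?_ ?_ ?_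
  · rfl
  · rfl
  · rfl
  · ext s
    exact E.commutes s

end

/-! ### cancellation -/

section
variable {R S T : Type} [CommRing R] [CommRing S] [CommRing T] {f : R →+* S} {g : S →+* T}

lemma IsBC.cancel {X : GrAlg R} {Y : GrAlg S} {Z : GrAlg T} (h : IsBC f X Y)
    (h' : IsBC (g.comp f) X Z) : IsBC g Y Z := by
  obtain ⟨Φ, hΦ, hp⟩ := h
  obtain ⟨Θ, hΘ, hp'⟩ := h'
  have hw : CommRingCat.ofHom (algebraMap R X.A) ≫ CommRingCat.ofHom Θ =
      CommRingCat.ofHom f ≫ (CommRingCat.ofHom g ≫ CommRingCat.ofHom (algebraMap T Z.A)) := hp'.w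
  let Ψ := hp.desc _ _ hw
  have h1 : CommRingCat.ofHom Φ ≫ Ψ = CommRingCat.ofHom Θ := hp.inl_desc _ _ hw
  have h2 : CommRingCat.ofHom (algebraMap S Y.A) ≫ Ψ =
      CommRingCat.ofHom g ≫ CommRingCat.ofHom (algebraMap T Z.A) := hp.inr_desc _ _ hw
  have h3 : ∀ x, Ψ.hom (Φ x) = Θ x := fun x => congr($(h1).hom x)
  have h4 : ∀ s, Ψ.hom (algebraMap S Y.A s) = algebraMap T Z.A (g s) := fun s => congr($(h2).hom s)
  refine ⟨Ψ.hom, ?_, ?_⟩
  · intro n y hy
    letI : Algebra R S := f.toAlgebra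
    obtain ⟨E, hE1, hE2⟩ := exists_equiv (X := X) (Y := Y) (Φ := Φ) hΦ hp
    have hx : E.symm y ∈ (X.gr n).baseChange S := by
      rw [hE2, AlgEquiv.apply_symm_apply]; exact hy
    rw [← AlgEquiv.apply_symm_apply E y]
    rw [Submodule.baseChange_eq_span] at hx
    refine Submodule.span_induction (p := fun x _ => Ψ.hom (E x) ∈ Z.gr n) ?_ ?_ ?_ ?_ hx
    · rintro _ ⟨a, ha, rfl⟩
      change Ψ.hom (E (1 ⊗ₜ a)) ∈ Z.gr n
      rw [hE1, h3]
      exact hΘ n a ha
    · rw [map_zero, map_zero]; exact Submodule.zero_mem _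
    · intro a b _ _ ha hb
      rw [map_add, map_add]; exact Submodule.add_mem _ ha hb
    · intro s a _ ha
      rw [map_smul, Algebra.smul_def, map_mul, h4, ← Algebra.smul_def]
      exact Submodule.smul_mem _ _ ha
  · refine IsPushout.of_top (h₁₁ := CommRingCat.ofHom (algebraMap R X.A))
      (v₁₁ := CommRingCat.ofHom f) (v₁₂ := CommRingCat.ofHom Φ) ?_ h2 hp
    change IsPushout _ (CommRingCat.ofHom f ≫ CommRingCat.ofHom g) (CommRingCat.ofHom Φ ≫ Ψ) _
    rw [h1]
    exact hp'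

end

end Pool.Agent.Helper190_Proj
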