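import Pool.Agent.Helper190_Proj.BC
import Pool.Agent.Helper190_Can.ZBase

set_option linter.unusedSimpArgs false
set_option linter.unusedSectionVars false
set_option linter.unusedVariables false
set_option linter.style.haveILetI false

open Module CategoryTheory TensorProduct

noncomputable section

namespace Pool.Agent.Helper190_Proj

section
variable {R S : Type} [CommRing R] [CommRing S]

/-- free pieces are projective -/
def ofFree (X : Helper190_Can.GrAlg R) : GrAlg R where
  A := X.A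
  gr := X.gr
  proj n := by
    have := X.free n
    infer_instance
  finite := X.finite

/-- graded algebras with free pieces -/
def toFree (X : GrAlg R) (h : ∀ n, Module.Free R (X.gr n)) : Helper190_Can.GrAlg R where
  A := X.A
  gr := X.gr
  free := h
  finite := X.finite

lemma ofFree_toFree (X : GrAlg R) (h : ∀ n, Module.Free R (X.gr n)) :
    ofFree (toFree X h) = X := rfl

lemma toFree_ofFree (X : Helper190_Can.GrAlg R) (h : ∀ n, Module.Free R ((ofFree X).gr n)) :
    toFree (ofFree X) h = X := rfl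

theorem isBC_ofFree {f : R →+* S} {X : Helper190_Can.GrAlg R} {Y : Helper190_Can.GrAlg S}
    (h : Helper190_Can.IsBC f X Y) : IsBC f (ofFree X) (ofFree Y) := by
  letI : Algebra R S := f.toAlgebra
  obtain ⟨Φ, hΦ, hbas⟩ := Helper190_Can.isBC_iff.mp h
  have hmem : ∀ n, ∀ x ∈ X.gr n, Φ x ∈ Y.gr n := by
    intro n x hx
    obtain ⟨k, v, w, hvw⟩ := hbas n
    exact Helper190_Can.bc_mem Φ hΦ v w hvw hx
  choose k v w hvw using hbas
  let V : Basis (Σ n, Fin (k n)) R X.A :=
    (DirectSum.Decomposition.isInternal X.gr).collectedBasis v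
  let W : Basis (Σ n, Fin (k n)) S Y.A :=
    (DirectSum.Decomposition.isInternal Y.gr).collectedBasis w
  have hVW : ∀ i, Φ (V i) = W i := by
    intro i
    change Φ ((DirectSum.Decomposition.isInternal X.gr).collectedBasis v i) =
      (DirectSum.Decomposition.isInternal Y.gr).collectedBasis w i
    rw [DirectSum.IsInternal.collectedBasis_coe, DirectSum.IsInternal.collectedBasis_coe]
    exact hvw i.1 i.2
  letI : Algebra R Y.A := ((algebraMap S Y.A).comp (algebraMap R S)).toAlgebra
  have : IsScalarTower R S Y.A := IsScalarTower.of_algebraMap_eq fun r => rfl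
  let Φ' : X.A →ₐ[R] Y.A := { Φ with commutes' := fun r => hΦ r }
  let Ψ : S ⊗[R] X.A →ₐ[S] Y.A := Algebra.TensorProduct.lift (Algebra.ofId S Y.A) Φ'
    (fun _ _ => Commute.all _ _)
  have hΨ : ∀ a, Ψ (1 ⊗ₜ a) = Φ a := by
    intro a
    change Algebra.TensorProduct.lift (Algebra.ofId S Y.A) Φ' (fun _ _ => Commute.all _ _)
      (1 ⊗ₜ a) = Φ a
    rw [Algebra.TensorProduct.lift_tmul, map_one, one_mul]
    rfl
  let VS : Basis (Σ n, Fin (k n)) S (S ⊗[R] X.A) := Algebra.TensorProduct.basis S V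
  have h1 : ∀ i, Ψ (VS i) = W i := by
    intro i
    rw [Algebra.TensorProduct.basis_apply, hΨ, hVW]
  have h2 : Ψ.toLinearMap = (VS.equiv W (Equiv.refl _)).toLinearMap := by
    apply VS.ext
    intro i
    rw [LinearEquiv.coe_coe, Basis.equiv_apply]
    exact h1 i
  have h3 : Function.Bijective Ψ := by
    have h4 : (Ψ : S ⊗[R] X.A → Y.A) = VS.equiv W (Equiv.refl _) := by
      funext x
      exact LinearMap.congr_fun h2 x
    rw [h4]
    exact LinearEquiv.bijective _
  let E := AlgEquiv.ofBijective Ψ h3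
  have hE : ∀ (n : ℕ) (x : S ⊗[R] X.A), x ∈ (X.gr n).baseChange S → E x ∈ Y.gr n := by
    intro n x hx
    rw [Submodule.baseChange_eq_span] at hx
    refine Submodule.span_induction (p := fun x _ => E x ∈ Y.gr n) ?_ ?_ ?_ ?_ hx
    · rintro _ ⟨a, ha, rfl⟩
      change Ψ (1 ⊗ₜ a) ∈ Y.gr n
      rw [hΨ]
      exact hmem n a ha
    · rw [map_zero]; exact Submodule.zero_mem _
    · intro a b _ _ ha hb
      rw [map_add]; exact Submodule.add_mem _ ha hb
    · intro s a _ ha
      rw [map_smul]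
      exact Submodule.smul_mem _ _ ha
  exact isBC_of_equiv (R := R) (S := S) (X := ofFree X) (Y := ofFree Y) E hE

theorem isBC_toFree {f : R →+* S} {X : Helper190_Can.GrAlg R} {Y : Helper190_Can.GrAlg S}
    (h : IsBC f (ofFree X) (ofFree Y)) : Helper190_Can.IsBC f X Y := by
  letI : Algebra R S := f.toAlgebra
  obtain ⟨Φ, hΦ, hp⟩ := h
  obtain ⟨E, hE1, hE2⟩ : ∃ E : (S ⊗[R] X.A) ≃ₐ[S] Y.A, (∀ a : X.A, E (1 ⊗ₜ a) = Φ a) ∧
      ∀ (n : ℕ) (x : S ⊗[R] X.A), x ∈ (X.gr n).baseChange S ↔ E x ∈ Y.gr n :=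
    exists_equiv (R := R) (S := S) (X := ofFree X) (Y := ofFree Y) (Φ := Φ) hΦ hp
  rw [Helper190_Can.isBC_iff]
  refine ⟨Φ, fun r => congr($(hp.w).hom r), fun n => ?_⟩
  obtain ⟨k, ⟨v⟩⟩ := Helper190_Can.exists_fin_basis X n
  have hmap : Submodule.map (E.toLinearEquiv : (S ⊗[R] X.A) →ₗ[S] Y.A)
      ((X.gr n).baseChange S) = Y.gr n := by
    ext y
    rw [Submodule.mem_map]
    constructor
    · rintro ⟨x, hx, rfl⟩
      exact (hE2 n x).mp hx
    · intro hy
      refine ⟨E.symm y, ?_, ?_⟩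
      · refine (hE2 n _).mpr ?_
        rw [AlgEquiv.apply_symm_apply]
        exact hy
      · exact E.apply_symm_apply y
  let w : Basis (Fin k) S (Y.gr n) := (Helper190_Can.bcBas (S := S) v).map
    (E.toLinearEquiv.ofSubmodules _ _ hmap)
  refine ⟨k, v, w, fun i => ?_⟩
  have h1 : (w i : Y.A) = E ((Helper190_Can.bcBas (S := S) v i : _) : S ⊗[R] X.A) := by
    rw [Basis.map_apply]; rfl
  rw [h1, Helper190_Can.bcBas_coe]
  exact (hE1 _).symm

end

end Pool.Agent.Helper190_Proj
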