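import Pool.Agent.Helper190_CoarseTwo.Main

open Module CategoryTheory
open Pool.Agent.Helper190_CoarseTwo (CharTwo)

noncomputable section

namespace Pool.Agent.Helper190_Proj

/-- A commutative `ℕ`-graded `R`-algebra, all of whose graded pieces are finitely generated
projective `R`-modules. -/
structure GrAlg (R : Type) [CommRing R] where
  A : Type
  [cr : CommRing A]
  [alg : Algebra R A]
  gr : ℕ → Submodule R A
  [graded : GradedAlgebra gr]
  proj : ∀ n, Module.Projective R (gr n)
  finite : ∀ n, Module.Finite R (gr n)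

attribute [instance] GrAlg.cr GrAlg.alg GrAlg.graded GrAlg.proj GrAlg.finite

/-- `Y` is the base change of `X` along `f : R →+* S`: there is a homomorphism of graded rings
`X.A →+* Y.A` over `f` which makes `Y.A` the pushout `S ⊗ X.A`. For `f` the identity this says
that `X` and `Y` are isomorphic. -/
def IsBC {R S : Type} [CommRing R] [CommRing S] (f : R →+* S) (X : GrAlg R) (Y : GrAlg S) :
    Prop :=
  ∃ Φ : X.A →+* Y.A, (∀ n, ∀ x ∈ X.gr n, Φ x ∈ Y.gr n) ∧
    IsPushout (CommRingCat.ofHom (algebraMap R X.A)) (CommRingCat.ofHom f)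
      (CommRingCat.ofHom Φ) (CommRingCat.ofHom (algebraMap S Y.A))

/-- Families over `R`: finitely generated graded algebras with finitely generated projective graded
pieces, all of whose geometric fibres lie in the class `P`. -/
structure Fam (P : ∀ (k : Type) [Field k], GrAlg k → Prop) (R : Type) [CommRing R] where
  X : GrAlg R
  ft : Algebra.FiniteType R X.A
  fib : ∀ (k : Type) [Field k] [IsAlgClosed k] (f : R →+* k) (Y : GrAlg k), IsBC f X Y → P k Y

variable {P : ∀ (k : Type) [Field k], GrAlg k → Prop}

/-- The maps `π R` from the families over `R` to `M R` are compatible with base change (hence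
invariant under isomorphisms of families). -/
def IsNat (M : CommRingCat.{0} ⥤ Type) (π : ∀ R : CommRingCat.{0}, Fam P R → M.obj R) : Prop :=
  ∀ (R S : CommRingCat.{0}) (f : R ⟶ S) (X : Fam P R) (Y : Fam P S),
    IsBC f.hom X.X Y.X → M.map f (π R X) = π S Y

/-- All geometric fibres of the family `X` lie in the class `C`. -/
def Fam.In {R : Type} [CommRing R] (X : Fam P R) (C : ∀ (k : Type) [Field k], GrAlg k → Prop) :
    Prop :=
  ∀ (k : Type) [Field k] [IsAlgClosed k] (f : R →+* k) (Y : GrAlg k), IsBC f X.X Y → C k Y

/-- The class `C` is open in families with fibres in `P`: if a geometric fibre of a family over a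
Noetherian ring `R` lies in `C`, then so do all geometric fibres over some open neighbourhood
`{r ≠ 0}` in `Spec R` of the point under consideration. -/
def IsOpenIn (P C : ∀ (k : Type) [Field k], GrAlg k → Prop) : Prop :=
  ∀ (R : Type) [CommRing R] [IsNoetherianRing R] (X : Fam P R) (k : Type) [Field k]
    [IsAlgClosed k] (f : R →+* k) (Y : GrAlg k), IsBC f X.X Y → C k Y →
    ∃ r : R, f r ≠ 0 ∧ ∀ (l : Type) [Field l] [IsAlgClosed l] (g : R →+* l) (Z : GrAlg l),
      g r ≠ 0 → IsBC g X.X Z → C l Z

/-- A function on the moduli problem of the families with geometric fibres in `C` over rings with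
`2 = 0`: an element of `R` for every such family over a Noetherian ring `R`, compatible with base
change (hence with isomorphisms of families). -/
structure OpenFun (P C : ∀ (k : Type) [Field k], GrAlg k → Prop) where
  f : ∀ (R : CharTwo.FullSubcategory) [IsNoetherianRing R.obj] (X : Fam P R.obj), X.In C → R.obj
  nat : ∀ (R S : CharTwo.FullSubcategory) [IsNoetherianRing R.obj] [IsNoetherianRing S.obj]
    (g : R.obj →+* S.obj) (X : Fam P R.obj) (Y : Fam P S.obj) (hX : X.In C) (hY : Y.In C),
    IsBC g X.X Y.X → f S Y hY = g (f R X hX)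

/-- For every open class `C`, the functions on the families with fibres in `C` factor through
`π'`. -/
def OpenSep (M' : CharTwo.FullSubcategory ⥤ Type)
    (π' : ∀ R : CharTwo.FullSubcategory, Fam P R.obj → M'.obj R) : Prop :=
  ∀ C : ∀ (k : Type) [Field k], GrAlg k → Prop, IsOpenIn P C → ∀ (F : OpenFun P C)
    (R : CharTwo.FullSubcategory) [IsNoetherianRing R.obj] (X Y : Fam P R.obj) (hX : X.In C)
    (hY : Y.In C), π' R X = π' R Y → F.f R X hX = F.f R Y hY

/-- The `n`-fold differential form `f (dx₀ ∧ dx₁)ⁿ` of the field extension `K / k` is regular at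
the valuation ring `V`: it is equal to `g (du₀ ∧ du₁)ⁿ` for some `g, u₀, u₁` in `V`. Here
`dxᵢ = ∑ⱼ Aᵢⱼ duⱼ`, so that `g = f det(A)ⁿ`. -/
def IsReg (k : Type) {K : Type} [Field k] [Field K] [Algebra k K] (x : Fin 2 → K) (n : ℕ) (f : K)
    (V : ValuationSubring K) : Prop :=
  ∃ (u : Fin 2 → K) (A : Matrix (Fin 2) (Fin 2) K), (∀ i, u i ∈ V) ∧
    (∀ i, KaehlerDifferential.D k K (x i) = ∑ j, A i j • KaehlerDifferential.D k K (u j)) ∧
    f * A.det ^ n ∈ V

/-- `Y` is the canonical ring of the surfaces with function field `K`, where `K / k` is some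
finitely generated field extension of transcendence degree `2`: the graded ring of the `n`-fold
differential forms `f (dx₀ ∧ dx₁)ⁿ` of `K / k` which are regular at all valuation rings of `K / k`.
Here `dx₀, dx₁` is a basis of the differential forms of `K / k`. For a smooth projective model `X`
of `K` these are the global sections of the powers of the canonical line bundle of `X`, since
every valuation ring of `K / k` has a centre on `X`. -/
def IsCanonicalRing (k : Type) [Field k] (Y : GrAlg k) : Prop :=
  ∃ (K : Type) (_ : Field K) (_ : Algebra k K) (x : Fin 2 → K) (Φ : Y.A →ₐ[k] Polynomial K),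
    (⊤ : IntermediateField k K).FG ∧ Algebra.trdeg k K = 2 ∧
    LinearIndependent K (fun i => KaehlerDifferential.D k K (x i)) ∧ Function.Injective Φ ∧
    ∀ n : ℕ, Φ '' (Y.gr n : Set Y.A) = {F | ∃ f : K, F = Polynomial.monomial n f ∧
      ∀ V : ValuationSubring K, (∀ c : k, algebraMap k K c ∈ V) → IsReg k x n f V}

/-- `Y` is the canonical ring of a canonically polarized surface with `K² = a`, `χ = b`, `q = 0`:
the plurigenera are `P₀ = 1`, `P₁ = b - 1` and `Pₙ = b + a n (n - 1) / 2` for `n ≥ 2`. -/
def CanRing (a b : ℕ) (k : Type) [Field k] (Y : GrAlg k) : Prop :=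
  IsCanonicalRing k Y ∧ finrank k (Y.gr 0) = 1 ∧ finrank k (Y.gr 1) + 1 = b ∧
    ∀ n : ℕ, 2 ≤ n → 2 * finrank k (Y.gr n) + a * n = 2 * b + a * n ^ 2

end Pool.Agent.Helper190_Proj
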