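import Pool.Agent.Helper190_Proj.Kron

set_option linter.unusedSimpArgs false
set_option linter.unusedSectionVars false
set_option linter.unusedVariables false
set_option linter.style.haveILetI false

/-! Projective modules of constant rank become free over the Nagata ring. -/

open Polynomial TensorProduct Module

noncomputable section

namespace Pool.Agent.Helper190_Proj

/-- a retract of a free module onto a projective module of the same rank -/
lemma basis_of_section {R P : Type} [CommRing R] [AddCommGroup P] [Module R P] [Module.Finite R P]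
    [Module.Projective R P] (m : ℕ) (hm : ∀ p : PrimeSpectrum R, Module.rankAtStalk (R := R) P p = m)
    (Λ : P →ₗ[R] (Fin m → R)) (Q : (Fin m → R) →ₗ[R] P) (h : Λ ∘ₗ Q = LinearMap.id) :
    Nonempty (Basis (Fin m) R P) := by
  have h' : ∀ c, Λ (Q c) = c := fun c => LinearMap.congr_fun h c
  let N := LinearMap.ker Λ
  let pr : P →ₗ[R] N := (LinearMap.id - Q ∘ₗ Λ).codRestrict N (fun x => by
    change Λ (x - Q (Λ x)) = 0
    rw [map_sub, h', sub_self])
  have hpr : pr ∘ₗ N.subtype = LinearMap.id := by
    apply LinearMap.ext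
    intro x
    apply Subtype.ext
    change (x : P) - Q (Λ x) = x
    have : Λ x = 0 := x.2
    rw [this, map_zero, sub_zero]
  have : Module.Finite R N := Module.Finite.of_surjective pr (fun x => ⟨x, LinearMap.congr_fun hpr x⟩)
  have : Module.Projective R N := Module.Projective.of_split N.subtype pr hpr
  let e : P ≃ₗ[R] (Fin m → R) × N :=
    { toFun := fun x => (Λ x, pr x)
      map_add' := fun x y => by simp
      map_smul' := fun r x => by simp
      invFun := fun y => Q y.1 + y.2
      left_inv := fun x => by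
        change Q (Λ x) + (x - Q (Λ x)) = x
        abel
      right_inv := fun y => by
        have h1 : Λ (Q y.1 + y.2) = y.1 := by
          have h2 : Λ (y.2 : P) = 0 := y.2.2
          rw [map_add, h', h2, add_zero]
        refine Prod.ext h1 ?_
        apply Subtype.ext
        change Q y.1 + y.2 - Q (Λ (Q y.1 + y.2)) = y.2
        rw [h1]
        abel }
  have hN : Subsingleton N := by
    rw [← Module.rankAtStalk_eq_zero_iff_subsingleton (R := R)]
    funext p
    have h1 := congrFun (Module.rankAtStalk_eq_of_equiv e) p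
    rw [Module.rankAtStalk_prod, Pi.add_apply, hm p] at h1
    have : Nontrivial R := p.nontrivial
    rw [Module.rankAtStalk_eq_finrank_of_free] at h1
    rw [Pi.natCast_apply, Module.finrank_fin_fun] at h1
    rw [Pi.zero_apply]
    simp at h1
    exact h1
  have hinj : Function.Injective Λ := by
    rw [← LinearMap.ker_eq_bot, ← Submodule.subsingleton_iff_eq_bot]
    exact hN
  exact ⟨Basis.ofEquivFun (LinearEquiv.ofBijective Λ ⟨hinj, fun c => ⟨Q c, h' c⟩⟩)⟩

section
variable {R P : Type} [CommRing R] [AddCommGroup P] [Module R P] {l : ℕ}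
  (p : Fin l → P) (lam : Fin l → P →ₗ[R] R)

/-- the matrix -/
def Gm (m : ℕ) : Matrix (Fin m) (Fin m) R[X] :=
  Matrix.of fun a j => ∑ t, ∑ t', (X : R[X]) ^ kx l t a * X ^ kx l t' j * C (lam t (p t'))

lemma det_Gm {m : ℕ} (hx : ∀ x : P, x = ∑ t, lam t x • p t)
    (hm : ∀ (K : Type) [Field K] [Algebra R K], finrank K (K ⊗[R] P) = m)
    (hfin : Module.Finite R P) : (Gm p lam m).det ∈ nag R := by
  intro K _ g h0
  letI : Algebra R K := g.toAlgebra
  let W := K ⊗[R] P
  let b : Basis (Fin m) K W := Module.finBasisOfFinrankEq K W (hm K)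
  let w : Fin l → W := fun t => 1 ⊗ₜ p t
  let mu : Fin l → Module.Dual K W := fun t =>
    (TensorProduct.AlgebraTensorModule.rid R K K).toLinearMap ∘ₗ (lam t).baseChange K
  have hmu : ∀ t (c : K) (x : P), mu t (c ⊗ₜ x) = g (lam t x) * c := by
    intro t c x
    change (TensorProduct.AlgebraTensorModule.rid R K K) ((lam t).baseChange K (c ⊗ₜ x)) = _
    rw [LinearMap.baseChange_tmul, TensorProduct.AlgebraTensorModule.rid_tmul, Algebra.smul_def]
    rfl
  have hid : ∀ y : W, y = ∑ t, mu t y • w t := by
    intro y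
    induction y using TensorProduct.induction_on with
    | zero => simp
    | tmul c x =>
      conv_lhs => rw [hx x]
      rw [TensorProduct.tmul_sum]
      refine Finset.sum_congr rfl fun t _ => ?_
      rw [hmu, TensorProduct.smul_tmul', smul_eq_mul, mul_one, TensorProduct.tmul_smul,
        TensorProduct.smul_tmul', Algebra.smul_def]
      rfl
    | add y z hy hz =>
      simp only [map_add, add_smul, Finset.sum_add_distrib]
      rw [← hy, ← hz]
  have hw : Submodule.span K (Set.range w) = ⊤ := by
    rw [eq_top_iff]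
    rintro y -
    rw [hid y]
    exact Submodule.sum_mem _ fun t _ => Submodule.smul_mem _ _ (Submodule.subset_span ⟨t, rfl⟩)
  have hmus : Submodule.span K (Set.range mu) = ⊤ := by
    rw [eq_top_iff]
    rintro f -
    have h1 : f = ∑ t, f (w t) • mu t := by
      apply LinearMap.ext
      intro y
      conv_lhs => rw [hid y]
      rw [map_sum, LinearMap.sum_apply]
      refine Finset.sum_congr rfl fun t _ => ?_
      rw [map_smul, LinearMap.smul_apply, smul_eq_mul, smul_eq_mul, mul_comm]
    rw [h1]
    exact Submodule.sum_mem _ fun t _ => Submodule.smul_mem _ _ (Submodule.subset_span ⟨t, rfl⟩)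
  have k1 := kron b w hw
  have k2 := kron b.dualBasis mu hmus
  set A1 := Matrix.of fun (j a : Fin m) => ∑ i : Fin l, (X : K[X]) ^ kx l i j *
    C (b.dualBasis.repr (mu i) a) with hA1
  set A2 := Matrix.of fun (j a : Fin m) => ∑ i : Fin l, (X : K[X]) ^ kx l i j *
    C (b.repr (w i) a) with hA2
  have h1 : (mapRingHom g).mapMatrix (Gm p lam m) = A1 * A2.transpose := by
    ext1 a j
    rw [RingHom.mapMatrix_apply, Matrix.map_apply, Matrix.mul_apply]
    have e1 : ∀ t t', (C (g (lam t (p t'))) : K[X]) =
        ∑ c, C (b.dualBasis.repr (mu t) c) * C (b.repr (w t') c) := by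
      intro t t'
      have e2 : g (lam t (p t')) = mu t (w t') := by rw [hmu, mul_one]
      have e3 : mu t (w t') = ∑ c, b.dualBasis.repr (mu t) c * b.repr (w t') c := by
        conv_lhs => rw [← b.sum_repr (w t')]
        rw [map_sum]
        refine Finset.sum_congr rfl fun c _ => ?_
        rw [map_smul, Basis.dualBasis_repr, smul_eq_mul, mul_comm]
      rw [e2, e3, map_sum]
      exact Finset.sum_congr rfl fun c _ => by rw [C_mul]
    change (mapRingHom g) (∑ t, ∑ t', (X : R[X]) ^ kx l t a * X ^ kx l t' j * C (lam t (p t'))) = _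
    simp only [map_sum, map_mul, map_pow, coe_mapRingHom, map_X, map_C, e1]
    simp only [hA1, hA2, Matrix.transpose_apply, Matrix.of_apply, Finset.mul_sum]
    refine Eq.trans (Finset.sum_congr rfl fun t _ => Finset.sum_comm) ?_
    refine Eq.trans Finset.sum_comm ?_
    refine Finset.sum_congr rfl fun c _ => ?_
    refine Eq.trans Finset.sum_comm ?_
    refine Finset.sum_congr rfl fun t' _ => ?_
    rw [Finset.sum_mul]
    refine Finset.sum_congr rfl fun t _ => ?_
    ring
  have h2 := congrArg Matrix.det h1
  rw [← RingHom.map_det, Matrix.det_mul, Matrix.det_transpose, coe_mapRingHom, h0] at h2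
  exact mul_ne_zero k2 k1 h2.symm

end

/-- freeness over any ring over which the polynomials in `nag` become invertible -/
theorem free_gen {R P : Type} [CommRing R] [AddCommGroup P] [Module R P] [Module.Finite R P]
    [Module.Projective R P] {m : ℕ}
    (hm : ∀ (K : Type) [Field K] [Algebra R K], finrank K (K ⊗[R] P) = m) (R' : Type) [CommRing R']
    [Algebra R R'] (ι : R[X] →+* R') (hι : ∀ r, ι (C r) = algebraMap R R' r)
    (hιu : ∀ p ∈ nag R, IsUnit (ι p)) :
    Nonempty (Basis (Fin m) R' (R' ⊗[R] P)) := by
  obtain ⟨l, s, hs⟩ := Module.Finite.exists_fin' R P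
  obtain ⟨i, hi⟩ := Module.projective_lifting_property s LinearMap.id hs
  let p : Fin l → P := fun t => s (Pi.single t 1)
  let lam : Fin l → P →ₗ[R] R := fun t => LinearMap.proj t ∘ₗ i
  have hx : ∀ x : P, x = ∑ t, lam t x • p t := by
    intro x
    have h1 : s (i x) = x := LinearMap.congr_fun hi x
    conv_lhs => rw [← h1, ← (Pi.basisFun R (Fin l)).sum_repr (i x)]
    rw [map_sum]
    refine Finset.sum_congr rfl fun t _ => ?_
    rw [map_smul]
    simp [p, lam]
  have hdet := det_Gm p lam hx hm inferInstance
  have hu : IsUnit (ι.mapMatrix (Gm p lam m)).det := by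
    rw [← RingHom.map_det]
    exact hιu _ hdet
  let G' := ι.mapMatrix (Gm p lam m)
  let q : Fin m → R' ⊗[R] P := fun j => ∑ t, (ι X ^ kx l t j : R') ⊗ₜ[R] p t
  let L : Fin m → (R' ⊗[R] P →ₗ[R'] R') := fun a => ∑ t, (ι X ^ kx l t a : R') •
    ((TensorProduct.AlgebraTensorModule.rid R R' R').toLinearMap ∘ₗ
      (lam t).baseChange R')
  have hL : ∀ a j, L a (q j) = G' a j := by
    intro a j
    change _ = ι (∑ t, ∑ t', (X : R[X]) ^ kx l t a * X ^ kx l t' j * C (lam t (p t')))
    simp only [L, q, LinearMap.sum_apply, LinearMap.smul_apply, map_sum, map_mul, map_pow,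
      smul_eq_mul, Finset.mul_sum]
    rw [Finset.sum_comm]
    refine Finset.sum_congr rfl fun t _ => Finset.sum_congr rfl fun t' _ => ?_
    change ι X ^ kx l t a * (TensorProduct.AlgebraTensorModule.rid R R' R')
      ((lam t).baseChange R' ((ι X ^ kx l t' j : R') ⊗ₜ[R] p t')) = _
    rw [LinearMap.baseChange_tmul, TensorProduct.AlgebraTensorModule.rid_tmul, Algebra.smul_def,
      ← hι]
    ring
  let Q : (Fin m → R') →ₗ[R'] R' ⊗[R] P := Fintype.linearCombination R' q
  let Λ : R' ⊗[R] P →ₗ[R'] (Fin m → R') := LinearMap.pi L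
  have hΛQ : ∀ c, Λ (Q c) = G'.mulVec c := by
    intro c
    funext a
    change L a (Fintype.linearCombination R' q c) = _
    rw [Fintype.linearCombination_apply, map_sum, Matrix.mulVec, dotProduct]
    refine Finset.sum_congr rfl fun j _ => ?_
    rw [map_smul, hL, smul_eq_mul, mul_comm]
  refine basis_of_section m ?_ Λ (Q ∘ₗ (G'⁻¹).mulVecLin) ?_
  · intro p'
    rw [Module.rankAtStalk_eq]
    have e := TensorProduct.AlgebraTensorModule.cancelBaseChange R R' p'.asIdeal.ResidueField
      p'.asIdeal.ResidueField P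
    rw [e.finrank_eq]
    exact hm _
  · apply LinearMap.ext
    intro c
    change Λ (Q ((G'⁻¹).mulVec c)) = c
    rw [hΛQ, Matrix.mulVec_mulVec, Matrix.mul_nonsing_inv _ hu, Matrix.one_mulVec]

theorem free_nag {R P : Type} [CommRing R] [AddCommGroup P] [Module R P] [Module.Finite R P]
    [Module.Projective R P] {m : ℕ}
    (hm : ∀ (K : Type) [Field K] [Algebra R K], finrank K (K ⊗[R] P) = m) :
    Nonempty (Basis (Fin m) (Nag R) (Nag R ⊗[R] P)) :=
  free_gen hm (Nag R) (algebraMap R[X] (Nag R))
    (fun r => by rw [IsScalarTower.algebraMap_apply R R[X] (Nag R)]; rfl)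
    (fun p hp => IsLocalization.map_units (Nag R) (⟨_, hp⟩ : nag R))

end Pool.Agent.Helper190_Proj
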