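import Pool.Agent.Helper190_Proj.Cmp
import Pool.Agent.Helper190_Proj.Rank
import Pool.Agent.Helper190_Can.ZDefs

set_option linter.unusedSimpArgs false
set_option linter.unusedSectionVars false
set_option linter.unusedVariables false
set_option linter.style.haveILetI false

open Module CategoryTheory TensorProduct Polynomial
open Pool.Agent.Helper190_CoarseTwo (CharTwo)

noncomputable section

namespace Pool.Agent.Helper190_Proj

/-- the class of graded algebras with free pieces -/
def Pf (P : ∀ (k : Type) [Field k], GrAlg k → Prop) (k : Type) [Field k]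
    (Y : Helper190_Can.GrAlg k) : Prop := P k (ofFree Y)

/-- over a field all modules are free -/
def fld {k : Type} [Field k] (Y : GrAlg k) : Helper190_Can.GrAlg k :=
  toFree Y fun _ => inferInstance

/-- the class of graded algebras with projective pieces -/
def Cp (C : ∀ (k : Type) [Field k], Helper190_Can.GrAlg k → Prop) (k : Type) [Field k]
    (Y : GrAlg k) : Prop := C k (fld Y)

variable {P : ∀ (k : Type) [Field k], GrAlg k → Prop}
  {C : ∀ (k : Type) [Field k], Helper190_Can.GrAlg k → Prop}

/-- a family with free pieces is a family -/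
def famOf {R : Type} [CommRing R] (X : Helper190_Can.Fam (Pf P) R) : Fam P R where
  X := ofFree X.X
  ft := X.ft
  fib k _ _ f Y hY := X.fib k f (fld Y) (isBC_toFree (Y := fld Y) hY)

section
variable {R : Type} [CommRing R]

lemma finiteType_of_isBC {S : Type} [CommRing S] {f : R →+* S} {X : GrAlg R} {Y : GrAlg S}
    (h : IsBC f X Y) (hX : Algebra.FiniteType R X.A) : Algebra.FiniteType S Y.A := by
  letI : Algebra R S := f.toAlgebra
  obtain ⟨Φ, hΦ, hp⟩ := h
  obtain ⟨E, _, _⟩ := exists_equiv (X := X) (Y := Y) (Φ := Φ) hΦ hp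
  exact Algebra.FiniteType.equiv (A := S ⊗[R] X.A) inferInstance E

/-- base change to a ring over which the pieces are free -/
def bcFree (X : Fam P R) (S : Type) [CommRing S] [Algebra R S]
    (h : ∀ n, Module.Free S ((X.X.bc S).gr n)) : Helper190_Can.Fam (Pf P) S where
  X := toFree (X.X.bc S) h
  ft := finiteType_of_isBC (isBC_bc X.X S) X.ft
  fib k _ _ f Y hY := X.fib k _ (ofFree Y)
    ((isBC_bc X.X S).trans (isBC_ofFree (X := toFree (X.X.bc S) h) hY))

lemma bcFree_in {X : Fam P R} (hX : X.In (Cp C)) (S : Type) [CommRing S] [Algebra R S]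
    (h : ∀ n, Module.Free S ((X.X.bc S).gr n)) : (bcFree X S h).In C := by
  intro k _ _ f Y hY
  exact hX k _ (ofFree Y) ((isBC_bc X.X S).trans (isBC_ofFree (X := toFree (X.X.bc S) h) hY))

/-- the class has a Hilbert function -/
def HasHilb (P : ∀ (k : Type) [Field k], GrAlg k → Prop) : Prop :=
  ∃ h : ℕ → ℕ, ∀ (k : Type) [Field k] [IsAlgClosed k] (Y : GrAlg k), P k Y →
    ∀ n, finrank k (Y.gr n) = h n

lemma free_bc (hP : HasHilb P) (X : Fam P R) (S : Type) [CommRing S] [Algebra R S]
    (ι : R[X] →+* S) (hι : ∀ r, ι (Polynomial.C r) = algebraMap R S r)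
    (hιu : ∀ p ∈ nag R, IsUnit (ι p)) (n : ℕ) : Module.Free S ((X.X.bc S).gr n) := by
  obtain ⟨h, hh⟩ := hP
  have hm : ∀ (K : Type) [Field K] [Algebra R K], finrank K (K ⊗[R] X.X.gr n) = h n := by
    intro K _ _
    let L := AlgebraicClosure K
    have h1 : finrank L ((X.X.gr n).baseChange L) = h n :=
      hh L (X.X.bc L) (X.fib L (algebraMap R L) (X.X.bc L) (isBC_bc X.X L)) n
    rw [← (bcEquiv (S := L) X.X n).finrank_eq] at h1
    have e := TensorProduct.AlgebraTensorModule.cancelBaseChange R K L L (X.X.gr n)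
    rw [← e.finrank_eq, Module.finrank_baseChange] at h1
    exact h1
  obtain ⟨b⟩ := free_gen (P := X.X.gr n) hm S ι hι hιu
  exact Module.Free.of_basis (b.map (bcEquiv (S := S) X.X n))

end

end Pool.Agent.Helper190_Proj
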