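import Pool.Agent.Helper190_Proj.Open

set_option linter.unusedSimpArgs false
set_option linter.unusedSectionVars false
set_option linter.unusedVariables false
set_option linter.style.haveILetI false

open Module CategoryTheory TensorProduct Polynomial
open Pool.Agent.Helper190_CoarseTwo (CharTwo)

noncomputable section

namespace Pool.Agent.Helper190_Proj

variable {P : ∀ (k : Type) [Field k], GrAlg k → Prop}
  {C : ∀ (k : Type) [Field k], Helper190_Can.GrAlg k → Prop}

lemma two_of {R S : Type} [CommRing R] [CommRing S] [Algebra R S] (h : (2 : R) = 0) :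
    (2 : S) = 0 := by
  have := congrArg (algebraMap R S) h
  rwa [map_ofNat, map_zero] at this

/-- `r` is the value of the function on the family `X` -/
def IsValF (F : Helper190_Can.OpenFun (Pf P) C) {R : Type} [CommRing R] (X : Fam P R) (r : R) :
    Prop :=
  ∀ (S : CharTwo.FullSubcategory) [IsNoetherianRing S.obj] (g : R →+* S.obj)
    (Y : Helper190_Can.Fam (Pf P) S.obj) (hY : Y.In C), IsBC g X.X (ofFree Y.X) →
    F.f S Y hY = g r

section
variable (F : Helper190_Can.OpenFun (Pf P) C)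

/-- the function is compatible with base change, for rings instead of objects -/
lemma F_nat {R S : Type} [CommRing R] [CommRing S] [IsNoetherianRing R] [IsNoetherianRing S]
    (hR : (2 : R) = 0) (hS : (2 : S) = 0) (g : R →+* S) (X : Helper190_Can.Fam (Pf P) R)
    (Y : Helper190_Can.Fam (Pf P) S) (hX : X.In C) (hY : Y.In C)
    (h : Helper190_Can.IsBC g X.X Y.X) :
    haveI : IsNoetherianRing ((⟨CommRingCat.of R, hR⟩ : CharTwo.FullSubcategory)).obj :=
      ‹IsNoetherianRing R›
    haveI : IsNoetherianRing ((⟨CommRingCat.of S, hS⟩ : CharTwo.FullSubcategory)).obj :=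
      ‹IsNoetherianRing S›
    F.f ⟨CommRingCat.of S, hS⟩ Y hY = g (F.f ⟨CommRingCat.of R, hR⟩ X hX) := by
  haveI : IsNoetherianRing ((⟨CommRingCat.of R, hR⟩ : CharTwo.FullSubcategory)).obj :=
      ‹IsNoetherianRing R›
  haveI : IsNoetherianRing ((⟨CommRingCat.of S, hS⟩ : CharTwo.FullSubcategory)).obj :=
      ‹IsNoetherianRing S›
  exact F.nat ⟨CommRingCat.of R, hR⟩ ⟨CommRingCat.of S, hS⟩ g X Y hX hY h

/-- the value over a ring -/
def Fv {R : Type} [CommRing R] [hN : IsNoetherianRing R] (hR : (2 : R) = 0)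
    (X : Helper190_Can.Fam (Pf P) R) (hX : X.In C) : R :=
  haveI : IsNoetherianRing ((⟨CommRingCat.of R, hR⟩ : CharTwo.FullSubcategory)).obj := hN
  F.f ⟨CommRingCat.of R, hR⟩ X hX

lemma Fv_nat {R S : Type} [CommRing R] [CommRing S] [IsNoetherianRing R] [IsNoetherianRing S]
    (hR : (2 : R) = 0) (hS : (2 : S) = 0) (g : R →+* S) (X : Helper190_Can.Fam (Pf P) R)
    (Y : Helper190_Can.Fam (Pf P) S) (hX : X.In C) (hY : Y.In C)
    (h : Helper190_Can.IsBC g X.X Y.X) : Fv F hS Y hY = g (Fv F hR X hX) :=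
  F_nat F hR hS g X Y hX hY h

theorem exists_valF (hP : HasHilb P) {R : Type} [CommRing R] [IsNoetherianRing R]
    (hR : (2 : R) = 0) (X : Fam P R) (hX : X.In (Cp C)) : ∃ r, IsValF F X r := by
  let N := Nag R
  let X2 : Helper190_Can.Fam (Pf P) (Nag R) := bcFree X (Nag R) (free_nagR hP X)
  have hX2 : X2.In C := bcFree_in hX _ _
  have hN2 : (2 : Nag R) = 0 := two_of (R := R) hR
  let O := Nag R ⊗[R] Nag R
  have hO2 := two_of (R := R) (S := O) hR
  let i1 : Nag R →+* O := Algebra.TensorProduct.includeLeftRingHom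
  let i2 : Nag R →+* O := (Algebra.TensorProduct.includeRight : Nag R →ₐ[R] O).toRingHom
  have hi1 : i1.comp (algebraMap R (Nag R)) = algebraMap R O := rfl
  have hi2 : i2.comp (algebraMap R (Nag R)) = algebraMap R O := by
    ext r
    exact (Algebra.TensorProduct.includeRight : Nag R →ₐ[R] O).commutes r
  have hfree := free_over_nag hP X O i1 (fun r => congr($hi1 r))
  let X3 : Helper190_Can.Fam (Pf P) O := bcFree X O hfree
  have hX3 : X3.In C := bcFree_in hX _ _
  have b1 : Helper190_Can.IsBC i1 X2.X X3.X := by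
    refine isBC_toFree (X := X2.X) (Y := X3.X) ((isBC_bc X.X (Nag R)).cancel (Z := X.X.bc O) ?_)
    rw [hi1]
    exact isBC_bc X.X O
  have b2 : Helper190_Can.IsBC i2 X2.X X3.X := by
    refine isBC_toFree (X := X2.X) (Y := X3.X) ((isBC_bc X.X (Nag R)).cancel (Z := X.X.bc O) ?_)
    rw [hi2]
    exact isBC_bc X.X O
  have e1 := Fv_nat F hN2 hO2 i1 X2 X3 hX2 hX3 b1
  have e2 := Fv_nat F hN2 hO2 i2 X2 X3 hX2 hX3 b2
  obtain ⟨r, hr⟩ := descend (R := R) (O := Nag R) (x := Fv F hN2 X2 hX2) (e1.symm.trans e2)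
  refine ⟨r, ?_⟩
  intro S _ g Y hY hbc
  letI : Algebra R S.obj := g.toAlgebra
  let S' := S.obj ⊗[R] Nag R
  have hSN : IsNoetherianRing S' := by
    have : Algebra.EssFiniteType S.obj S' := inferInstance
    exact Algebra.EssFiniteType.isNoetherianRing S.obj S'
  have hS2 : (2 : S.obj) = 0 := S.property
  have hS'2 := two_of (R := R) (S := S') hR
  let j1 : S.obj →+* S' := Algebra.TensorProduct.includeLeftRingHom
  let j2 : Nag R →+* S' := (Algebra.TensorProduct.includeRight : Nag R →ₐ[R] S').toRingHom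
  have hj1 : j1.comp g = algebraMap R S' := rfl
  have hj2 : j2.comp (algebraMap R (Nag R)) = algebraMap R S' := by
    ext r
    exact (Algebra.TensorProduct.includeRight : Nag R →ₐ[R] S').commutes r
  have hfree' := free_over_nag hP X S' j2 (fun r => congr($hj2 r))
  let Y' : Helper190_Can.Fam (Pf P) S' := bcFree X S' hfree'
  have hY' : Y'.In C := bcFree_in hX _ _
  have c1 : Helper190_Can.IsBC j1 Y.X Y'.X := by
    refine isBC_toFree (X := Y.X) (Y := Y'.X) (hbc.cancel (Z := X.X.bc S') ?_)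
    rw [hj1]
    exact isBC_bc X.X S'
  have c2 : Helper190_Can.IsBC j2 X2.X Y'.X := by
    refine isBC_toFree (X := X2.X) (Y := Y'.X) ((isBC_bc X.X (Nag R)).cancel (Z := X.X.bc S') ?_)
    rw [hj2]
    exact isBC_bc X.X S'
  have d1 := Fv_nat F hS2 hS'2 j1 Y Y' hY hY' c1
  have d2 := Fv_nat F hN2 hS'2 j2 X2 Y' hX2 hY' c2
  have hinj : Function.Injective j1 := by
    have h1 : Module.FaithfullyFlat S.obj (S.obj ⊗[R] Nag R) := inferInstance
    have h2 : FaithfulSMul S.obj (S.obj ⊗[R] Nag R) :=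
      Module.FaithfullyFlat.faithfulSMul (A := S.obj) (B := S.obj ⊗[R] Nag R)
    exact FaithfulSMul.algebraMap_injective S.obj (S.obj ⊗[R] Nag R)
  apply hinj
  have d3 : j1 (F.f S Y hY) = j2 (Fv F hN2 X2 hX2) := d1.symm.trans d2
  rw [d3, ← hr]
  exact (congr($hj2 r) : j2 (algebraMap R (Nag R) r) = algebraMap R S' r)

theorem valF_unique (hP : HasHilb P) {R : Type} [CommRing R] [IsNoetherianRing R]
    (hR : (2 : R) = 0) (X : Fam P R) (hX : X.In (Cp C)) {r r' : R} (h : IsValF F X r)
    (h' : IsValF F X r') : r = r' := by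
  let X2 : Helper190_Can.Fam (Pf P) (Nag R) := bcFree X (Nag R) (free_nagR hP X)
  have hX2 : X2.In C := bcFree_in hX _ _
  have hN2 : (2 : Nag R) = 0 := two_of (R := R) hR
  haveI : IsNoetherianRing ((⟨CommRingCat.of (Nag R), hN2⟩ : CharTwo.FullSubcategory)).obj :=
    noeth_nag R
  have e1 := h ⟨CommRingCat.of (Nag R), hN2⟩ (algebraMap R (Nag R)) X2 hX2 (isBC_bc X.X (Nag R))
  have e2 := h' ⟨CommRingCat.of (Nag R), hN2⟩ (algebraMap R (Nag R)) X2 hX2 (isBC_bc X.X (Nag R))
  exact FaithfulSMul.algebraMap_injective R (Nag R) (e1.symm.trans e2)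

/-- extension of functions to families with projective pieces -/
def extFun (hP : HasHilb P) : OpenFun P (Cp C) where
  f R _ X hX := (exists_valF F hP R.property X hX).choose
  nat R S _ _ g X Y hX hY hbc := by
    have h1 := (exists_valF F hP R.property X hX).choose_spec
    have h2 := (exists_valF F hP S.property Y hY).choose_spec
    refine valF_unique F hP S.property Y hY h2 ?_
    intro T _ h Z hZ hbcZ
    exact h1 T (h.comp g) Z hZ (hbc.trans hbcZ)

lemma extFun_eq (hP : HasHilb P) (R : CharTwo.FullSubcategory) [IsNoetherianRing R.obj]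
    (X : Helper190_Can.Fam (Pf P) R.obj) (hX : X.In C) (hX' : (famOf X).In (Cp C)) :
    (extFun F hP).f R (famOf X) hX' = F.f R X hX := by
  have h1 := (exists_valF F hP R.property (famOf X) hX').choose_spec
  exact (h1 R (RingHom.id R.obj) X hX (isBC_refl (ofFree X.X))).symm

end

/-- reduction to families with free pieces -/
theorem openSep_free (hP : HasHilb P) {M' : CharTwo.FullSubcategory ⥤ Type}
    {π' : ∀ R : CharTwo.FullSubcategory, Fam P R.obj → M'.obj R} (h : OpenSep M' π') :
    Helper190_Can.OpenSep (P := Pf P) M' (fun R X => π' R (famOf X)) := by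
  intro C hC F R _ X Y hX hY heq
  have hX' : (famOf X).In (Cp C) := fun k _ _ f Z hZ => hX k f (fld Z) (isBC_toFree (Y := fld Z) hZ)
  have hY' : (famOf Y).In (Cp C) := fun k _ _ f Z hZ => hY k f (fld Z) (isBC_toFree (Y := fld Z) hZ)
  have h1 := h (Cp C) (isOpenIn_Cp hP hC) (extFun F hP) R (famOf X) (famOf Y) hX' hY' heq
  rwa [extFun_eq F hP R X hX hX', extFun_eq F hP R Y hY hY'] at h1

theorem isNat_free {M : CommRingCat.{0} ⥤ Type}
    {π : ∀ R : CommRingCat.{0}, Fam P R → M.obj R} (h : IsNat M π) :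
    Helper190_Can.IsNat (P := Pf P) M (fun R X => π R (famOf X)) := by
  intro R S f X Y hbc
  exact h R S f (famOf X) (famOf Y) (isBC_ofFree hbc)

end Pool.Agent.Helper190_Proj
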