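import Pool.Agent.Helper190_Proj.Nag

set_option linter.unusedSimpArgs false
set_option linter.unusedSectionVars false
set_option linter.unusedVariables false

/-! Kronecker substitution. -/

open Polynomial TensorProduct Module

noncomputable section

namespace Pool.Agent.Helper190_Proj

/-- the exponents -/
def kx (l : ℕ) {m : ℕ} (i : Fin l) (j : Fin m) : ℕ := (i : ℕ) * l ^ (j : ℕ)

lemma exists_sub {K W : Type} [Field K] [AddCommGroup W] [Module K W] {m l : ℕ}
    (b : Basis (Fin m) K W) (w : Fin l → W) (hw : Submodule.span K (Set.range w) = ⊤) :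
    ∃ r : Fin m → Fin l, (Matrix.of fun (j a : Fin m) => b.repr (w (r j)) a).det ≠ 0 := by
  obtain ⟨κ, a, ha, hspan, hli⟩ := exists_linearIndependent' (K := K) w
  let b1 : Basis κ K W := Basis.mk hli (by rw [hspan, hw])
  let e : κ ≃ Fin m := b1.indexEquiv b
  let b2 : Basis (Fin m) K W := b1.reindex e
  refine ⟨fun j => a (e.symm j), ?_⟩
  have h1 : ∀ j, b2 j = w (a (e.symm j)) := by
    intro j
    rw [Basis.reindex_apply, Basis.mk_apply]; rfl
  have h2 : (Matrix.of fun (j c : Fin m) => b.repr (w (a (e.symm j))) c) =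
      (b.toMatrix b2).transpose := by
    ext j c
    rw [Matrix.transpose_apply, Basis.toMatrix_apply, h1]; rfl
  rw [h2, Matrix.det_transpose, ← Basis.det_apply]
  exact (b.isUnit_det b2).ne_zero

theorem kron {K W : Type} [Field K] [AddCommGroup W] [Module K W] {m l : ℕ}
    (b : Basis (Fin m) K W) (w : Fin l → W) (hw : Submodule.span K (Set.range w) = ⊤) :
    (Matrix.of fun (j a : Fin m) =>
      ∑ i : Fin l, (X : K[X]) ^ kx l i j * C (b.repr (w i) a)).det ≠ 0 := by
  classical
  obtain ⟨r₀, hr₀⟩ := exists_sub b w hw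
  let v : Fin l → Fin m → K[X] := fun i a => C (b.repr (w i) a)
  have h1 : (Matrix.of fun (j a : Fin m) =>
      ∑ i : Fin l, (X : K[X]) ^ kx l i j * C (b.repr (w i) a)) =
      Matrix.of fun j => ∑ i : Fin l, (X : K[X]) ^ kx l i j • v i := by
    ext j a
    simp [v]
  have h2 : (Matrix.of fun j => ∑ i : Fin l, (X : K[X]) ^ kx l i j • v i).det =
      ∑ r : Fin m → Fin l, (X : K[X]) ^ ((finFunctionFinEquiv r : Fin (l ^ m)) : ℕ) *
        C ((Matrix.of fun (j a : Fin m) => b.repr (w (r j)) a).det) := by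
    change (Matrix.detRowAlternating (R := K[X]) (n := Fin m)).toMultilinearMap
      (fun j => ∑ i : Fin l, (X : K[X]) ^ kx l i j • v i) = _
    rw [MultilinearMap.map_sum]
    refine Finset.sum_congr rfl fun r _ => ?_
    rw [MultilinearMap.map_smul_univ, Finset.prod_pow_eq_pow_sum, finFunctionFinEquiv_apply,
      smul_eq_mul]
    congr 1
    have h3 := (C : K →+* K[X]).map_det (Matrix.of fun (j a : Fin m) => b.repr (w (r j)) a)
    rw [h3]
    rfl
  rw [h1, h2]
  intro h0
  have h4 := congrArg (fun p => coeff p ((finFunctionFinEquiv r₀ : Fin (l ^ m)) : ℕ)) h0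
  simp only [finsetSum_coeff, coeff_zero] at h4
  rw [Finset.sum_eq_single r₀] at h4
  · rw [coeff_mul_C, coeff_X_pow_self, one_mul] at h4
    exact hr₀ h4
  · intro r _ hr
    rw [coeff_mul_C, coeff_X_pow, if_neg, zero_mul]
    intro h5
    exact hr (finFunctionFinEquiv.injective (Fin.ext h5)).symm
  · intro h
    exact absurd (Finset.mem_univ _) h

end Pool.Agent.Helper190_Proj
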