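import Pool.Agent.Helper190_Proj.Fun
import Pool.Agent.Helper190_Can.CMain

set_option linter.unusedSimpArgs false
set_option linter.unusedSectionVars false
set_option linter.unusedVariables false
set_option linter.style.haveILetI false

open Module CategoryTheory TensorProduct
open Pool.Agent.Helper190_CoarseTwo (CharTwo ClosedDiagonal wt zdeg bz)

noncomputable section

namespace Pool.Agent.Helper190_Proj

lemma card_Ixn_zero : Nat.card (Helper190_Can.Ixn 0) = 1 := by
  rw [← Nat.card_eq_of_bijective _ (Helper190_Can.toIx_bij 0), Nat.card_sum]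
  have h1 : Nat.card {p : ℕ × ℕ // 2 ≤ 0 ∧ p ∈ Helper190_Can.sq (0 - 2) (0 + 1)} = 0 := by
    have : IsEmpty {p : ℕ × ℕ // 2 ≤ 0 ∧ p ∈ Helper190_Can.sq (0 - 2) (0 + 1)} := ⟨fun p => by
      have := p.2.1
      omega⟩
    exact Nat.card_of_isEmpty
  rw [h1, Nat.card_eq_fintype_card, Fintype.card_coe, Helper190_Can.card_sq]
  rfl

lemma canRing_of_isCan {k : Type} [Field k] [IsAlgClosed k] (h : CharZero k ∨ CharP k 2)
    (Y : Helper190_Can.GrAlg k) (hY : Helper190_Can.IsCan 0 (bz k 2) Y) :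
    Pf (CanRing 8 5) k Y := by
  have hb : (bz k 2).IsWeightedHomogeneous wt (zdeg 2 + zdeg 2) :=
    Helper190_CoarseTwo.bz_hom le_rfl
  have ha : (0 : MvPolynomial (Fin 4) k).IsWeightedHomogeneous wt (zdeg 2) :=
    MvPolynomial.isWeightedHomogeneous_zero _ _ _
  have h1 := Helper190_Can.isCan_Can ha hb
  have h2 : Helper190_Can.IsBC (RingHom.id k)
    (Helper190_Can.Can (Helper190_Can.coefs 0 (bz k 2))) Y := Helper190_Can.isBC_of_isCan h1 hY
  obtain ⟨B', hB', hT'⟩ := Helper190_Can.tab_image h2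
    (Helper190_Can.hom_ofTab (Helper190_Can.canTab (Helper190_Can.coefs 0 (bz k 2))))
    (Helper190_Can.canTab (Helper190_Can.coefs 0 (bz k 2)))
  refine ⟨Helper190_Can.isCanonicalRing_of_tab h hB' hT' ?_ ?_, ?_, ?_, fun n hn => ?_⟩
  · exact Helper190_Can.pol_coefs ha hb (d := false)
  · intro κ
    simp [Helper190_Can.coefs]
  · exact (Helper190_Can.finrank_gr hB' 0).trans card_Ixn_zero
  · exact congrArg (· + 1) ((Helper190_Can.finrank_gr hB' 1).trans Helper190_Can.card_Ixn_one)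
  · have h3 : finrank k (Y.gr n) = Nat.card (Helper190_Can.Ixn n) :=
      Helper190_Can.finrank_gr hB' n
    change 2 * finrank k (Y.gr n) + 8 * n = 2 * 5 + 8 * n ^ 2
    rw [h3]
    exact Helper190_Can.card_Ixn hn

lemma hasHilb_canRing : HasHilb (CanRing 8 5) := by
  refine ⟨fun n => if n = 0 then 1 else if n = 1 then 4 else (10 + 8 * n ^ 2 - 8 * n) / 2, ?_⟩
  rintro k _ _ Y ⟨_, h0, h1, h2⟩ n
  simp only
  split_ifs with hn0 hn1
  · rw [hn0]; exact h0
  · rw [hn1]; omega
  · have := h2 n (by omega)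
    omega

theorem main3 (M : CommRingCat.{0} ⥤ Type) (hM : ClosedDiagonal M)
    (π : ∀ R : CommRingCat.{0}, Fam (CanRing 8 5) R → M.obj R) (hπ : IsNat M π)
    (M' : CharTwo.FullSubcategory ⥤ Type)
    (π' : ∀ R : CharTwo.FullSubcategory, Fam (CanRing 8 5) R.obj → M'.obj R)
    (hM' : OpenSep M' π') (φ : M' ⟶ CharTwo.ι ⋙ M)
    (hφ : ∀ (R : CharTwo.FullSubcategory) (X : Fam (CanRing 8 5) R.obj),
      φ.app R (π' R X) = π R.obj X) :
    ¬ Mono φ :=
  Helper190_Can.main2 (P := Pf (CanRing 8 5)) (fun _ _ _ h Y hY => canRing_of_isCan h Y hY) M hM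
    (fun R X => π R (famOf X)) (isNat_free hπ) M' (fun R X => π' R (famOf X))
    (openSep_free hasHilb_canRing hM') φ (fun R X => hφ R (famOf X))

end Pool.Agent.Helper190_Proj
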