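import Mathlib

set_option linter.unusedSimpArgs false
set_option linter.unusedSectionVars false
set_option linter.unusedVariables false

/-! The Nagata ring `R(T)`. -/

open Polynomial TensorProduct

noncomputable section

namespace Pool.Agent.Helper190_Proj

/-- the polynomials which do not vanish over any field -/
def nag (R : Type) [CommRing R] : Submonoid R[X] where
  carrier := {p | ∀ (K : Type) [Field K] (g : R →+* K), p.map g ≠ 0}
  mul_mem' := by
    intro p q hp hq K _ g
    rw [Polynomial.map_mul]
    exact mul_ne_zero (hp K g) (hq K g)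
  one_mem' := by
    intro K _ g
    rw [Polynomial.map_one]
    exact one_ne_zero

/-- the Nagata ring -/
abbrev Nag (R : Type) [CommRing R] : Type := Localization (nag R)

section
variable (R : Type) [CommRing R]

instance essFiniteType_nag : Algebra.EssFiniteType R (Nag R) := by
  have : Algebra.EssFiniteType R[X] (Nag R) := Algebra.EssFiniteType.of_isLocalization _ (nag R)
  exact Algebra.EssFiniteType.comp R R[X] (Nag R)

instance noeth_nag [IsNoetherianRing R] : IsNoetherianRing (Nag R) :=
  Algebra.EssFiniteType.isNoetherianRing R (Nag R)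

instance noeth_nag_nag [IsNoetherianRing R] : IsNoetherianRing (Nag R ⊗[R] Nag R) := by
  have : Algebra.EssFiniteType R (Nag R ⊗[R] Nag R) :=
    Algebra.EssFiniteType.comp R (Nag R) (Nag R ⊗[R] Nag R)
  exact Algebra.EssFiniteType.isNoetherianRing R (Nag R ⊗[R] Nag R)

instance flat_nag : Module.Flat R (Nag R) := by
  have : Module.Flat R[X] (Nag R) := IsLocalization.flat _ (nag R)
  exact Module.Flat.trans R R[X] (Nag R)

end

section
variable {R : Type} [CommRing R] {K : Type} [Field K] (g : R →+* K)

/-- the extension of a point to the Nagata ring -/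
def nagMap : Nag R →+* FractionRing K[X] :=
  IsLocalization.lift (M := nag R) (g := (algebraMap K[X] (FractionRing K[X])).comp
    (Polynomial.mapRingHom g)) (by
      intro y
      rw [isUnit_iff_ne_zero, RingHom.comp_apply, Polynomial.coe_mapRingHom]
      intro h
      exact y.2 K g ((IsFractionRing.injective K[X] (FractionRing K[X])) (by rw [h, map_zero])))

lemma nagMap_poly (p : R[X]) : nagMap g (algebraMap R[X] (Nag R) p) =
    algebraMap K[X] (FractionRing K[X]) (p.map g) :=
  IsLocalization.lift_eq _ p

lemma nagMap_alg (r : R) : nagMap g (algebraMap R (Nag R) r) =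
    algebraMap K (FractionRing K[X]) (g r) := by
  rw [IsScalarTower.algebraMap_apply R R[X] (Nag R), nagMap_poly, Polynomial.algebraMap_apply,
    Algebra.algebraMap_self_apply, Polynomial.map_C,
    IsScalarTower.algebraMap_apply K K[X] (FractionRing K[X]), Polynomial.algebraMap_apply,
    Algebra.algebraMap_self_apply]

lemma nagMap_ne {p : R[X]} (i : ℕ) (h : g (p.coeff i) ≠ 0) :
    nagMap g (algebraMap R[X] (Nag R) p) ≠ 0 := by
  rw [nagMap_poly]
  intro h0
  have h1 := (IsFractionRing.injective K[X] (FractionRing K[X]))
    (h0.trans (map_zero _).symm)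
  apply h
  rw [← Polynomial.coeff_map, h1, Polynomial.coeff_zero]

/-- an element of the Nagata ring not vanishing at a point has a numerator with a coefficient not
vanishing at the point -/
lemma exists_coeff {x : Nag R} (hx : nagMap g x ≠ 0) : ∃ c : R, g c ≠ 0 ∧
    ∀ (L : Type) [Field L] (h : R →+* L), h c ≠ 0 → nagMap h x ≠ 0 := by
  obtain ⟨⟨p, s⟩, hs⟩ := IsLocalization.surj (nag R) x
  simp only at hs
  have hu : ∀ (L : Type) [Field L] (h : R →+* L), nagMap h (algebraMap R[X] (Nag R) s) ≠ 0 := by
    intro L _ h
    rw [nagMap_poly]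
    intro h0
    exact s.2 L h ((IsFractionRing.injective L[X] (FractionRing L[X]))
      (h0.trans (map_zero _).symm))
  have h1 : p.map g ≠ 0 := by
    intro h0
    have h2 := congrArg (nagMap g) hs
    rw [map_mul, nagMap_poly g p, h0, map_zero] at h2
    exact (mul_ne_zero hx (hu K g)) h2
  obtain ⟨i, hi⟩ : ∃ i, g (p.coeff i) ≠ 0 := by
    by_contra hcon
    push Not at hcon
    apply h1
    ext i
    rw [Polynomial.coeff_map, hcon i, Polynomial.coeff_zero]
  refine ⟨p.coeff i, hi, fun L _ h hne h0 => ?_⟩
  have h2 := congrArg (nagMap h) hs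
  rw [map_mul, h0, zero_mul] at h2
  exact nagMap_ne h i hne h2.symm

end

instance ff_nag (R : Type) [CommRing R] : Module.FaithfullyFlat R (Nag R) := by
  apply Module.FaithfullyFlat.of_comap_surjective
  intro q
  let g : R →+* q.asIdeal.ResidueField := algebraMap R q.asIdeal.ResidueField
  refine ⟨PrimeSpectrum.comap (nagMap g) ⊥, ?_⟩
  apply PrimeSpectrum.ext
  ext r
  rw [PrimeSpectrum.comap_asIdeal, PrimeSpectrum.comap_asIdeal, Ideal.mem_comap,
    Ideal.mem_comap, nagMap_alg]
  refine Ideal.mem_bot.trans ?_
  rw [map_eq_zero_iff _ (algebraMap q.asIdeal.ResidueField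
    (FractionRing q.asIdeal.ResidueField[X])).injective]
  exact Ideal.algebraMap_residueField_eq_zero

/-- descent of elements -/
lemma descend {R O : Type} [CommRing R] [CommRing O] [Algebra R O] [Module.FaithfullyFlat R O]
    {x : O} (h : x ⊗ₜ[R] (1 : O) = (1 : O) ⊗ₜ[R] x) : ∃ r, algebraMap R O r = x := by
  have h4 : Algebra.IsEffective R O := Algebra.IsEffective.of_faithfullyFlat R O
  have h5 := h4.eqLocus_includeLeft_includeRight
  have h6 : x ∈ (Set.range (algebraMap R O)) := by
    rw [← h5]
    exact h
  exact h6

end Pool.Agent.Helper190_Proj
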