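import Pool.Agent.Helper190_Proj.Ext

set_option linter.unusedSimpArgs false
set_option linter.unusedSectionVars false
set_option linter.unusedVariables false
set_option linter.style.haveILetI false

open Module CategoryTheory TensorProduct Polynomial
open Pool.Agent.Helper190_CoarseTwo (CharTwo)

noncomputable section

namespace Pool.Agent.Helper190_Proj

variable {P : ∀ (k : Type) [Field k], GrAlg k → Prop}
  {C : ∀ (k : Type) [Field k], Helper190_Can.GrAlg k → Prop}

section
variable {R : Type} [CommRing R]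

/-- a fibre as a family over a field -/
def fibFam (X : Fam P R) {k : Type} [Field k] {f : R →+* k} {Y : GrAlg k} (h : IsBC f X.X Y) :
    Helper190_Can.Fam (Pf P) k where
  X := fld Y
  ft := finiteType_of_isBC h X.ft
  fib l _ _ g Z hZ := X.fib l _ (ofFree Z) (h.trans (isBC_ofFree (X := fld Y) hZ))

lemma isBC_id (X : Helper190_Can.GrAlg R) : Helper190_Can.IsBC (RingHom.id R) X X :=
  isBC_toFree (isBC_refl (ofFree X))

lemma C_up (hC : Helper190_Can.IsOpenIn (Pf P) C) (X : Fam P R) {k : Type} [Field k]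
    [IsAlgClosed k] {f : R →+* k} {Y : GrAlg k} (h : IsBC f X.X Y) (hY : C k (fld Y)) {l : Type}
    [Field l] [IsAlgClosed l] {g : k →+* l} {Z : GrAlg l} (hZ : IsBC g Y Z) : C l (fld Z) := by
  obtain ⟨r, hr, hr'⟩ := hC k (fibFam X h) k (RingHom.id k) (fld Y) (isBC_id _) hY
  exact hr' l g (fld Z) ((_root_.map_ne_zero g).mpr hr) (isBC_toFree (X := fld Y) (Y := fld Z) hZ)

lemma C_down (hC : Helper190_Can.IsOpenIn (Pf P) C) (X : Fam P R) {k : Type} [Field k]
    [IsAlgClosed k] {f : R →+* k} {Y : GrAlg k} (h : IsBC f X.X Y) {l : Type}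
    [Field l] [IsAlgClosed l] {g : k →+* l} {Z : GrAlg l} (hZ : IsBC g Y Z) (hZC : C l (fld Z)) :
    C k (fld Y) := by
  obtain ⟨r, hr, hr'⟩ := hC k (fibFam X h) l g (fld Z)
    (isBC_toFree (X := fld Y) (Y := fld Z) hZ) hZC
  refine hr' k (RingHom.id k) (fld Y) ?_ (isBC_id _)
  intro h0
  apply hr
  change r = 0 at h0
  rw [h0, map_zero]

end

section
variable {R : Type} [CommRing R] {k : Type} [Field k] (f : R →+* k)

/-- the field -/
abbrev k2 (k : Type) [Field k] : Type := AlgebraicClosure (FractionRing k[X])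

/-- the inclusion -/
def ik (k : Type) [Field k] : k →+* k2 k :=
  (algebraMap (FractionRing k[X]) (k2 k)).comp (algebraMap k (FractionRing k[X]))

/-- the point of the Nagata ring -/
def f2 : Nag R →+* k2 k := (algebraMap (FractionRing k[X]) (k2 k)).comp (nagMap f)

lemma f2_comp : (f2 f).comp (algebraMap R (Nag R)) = (ik k).comp f := by
  ext r
  change algebraMap (FractionRing k[X]) (k2 k) (nagMap f (algebraMap R (Nag R) r)) =
    algebraMap (FractionRing k[X]) (k2 k) (algebraMap k (FractionRing k[X]) (f r))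
  rw [nagMap_alg]

end

lemma nag_units {R : Type} [CommRing R] (S : Type) [CommRing S] [Algebra R S]
    (j : Nag R →+* S) : ∀ p ∈ nag R, IsUnit ((j.comp (algebraMap R[X] (Nag R))) p) := by
  intro p hp
  have h1 : IsUnit (algebraMap R[X] (Nag R) p) :=
    IsLocalization.map_units (Nag R) (⟨_, hp⟩ : nag R)
  exact h1.map j

lemma nag_C {R : Type} [CommRing R] (r : R) :
    algebraMap R[X] (Nag R) (Polynomial.C r) = algebraMap R (Nag R) r := by
  rw [IsScalarTower.algebraMap_apply R R[X] (Nag R)]; rfl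

/-- the base change to a ring over the Nagata ring is free -/
lemma free_over_nag (hP : HasHilb P) {R : Type} [CommRing R] (X : Fam P R) (S : Type) [CommRing S]
    [Algebra R S] (j : Nag R →+* S) (hj : ∀ r, j (algebraMap R (Nag R) r) = algebraMap R S r)
    (n : ℕ) : Module.Free S ((X.X.bc S).gr n) :=
  free_bc hP X S (j.comp (algebraMap R[X] (Nag R))) (fun r => by
    rw [RingHom.comp_apply, nag_C, hj]) (nag_units S j) n

lemma free_nagR (hP : HasHilb P) {R : Type} [CommRing R] (X : Fam P R) (n : ℕ) :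
    Module.Free (Nag R) ((X.X.bc (Nag R)).gr n) :=
  free_over_nag hP X (Nag R) (RingHom.id _) (fun _ => rfl) n

/-- open classes remain open for families with projective pieces -/
theorem isOpenIn_Cp (hP : HasHilb P) (hC : Helper190_Can.IsOpenIn (Pf P) C) :
    IsOpenIn P (Cp C) := by
  intro R _ _ X k _ _ f Y hY hCY
  letI := (ik k).toAlgebra
  have hlift : ∀ (l : Type) [Field l] [IsAlgClosed l] (g : R →+* l) (Z : GrAlg l)
      (hZ : IsBC g X.X Z) (Z2 : GrAlg (k2 l)) (hZ2 : IsBC (ik l) Z Z2),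
      Helper190_Can.IsBC (f2 g) (bcFree X (Nag R) (free_nagR hP X)).X (fld Z2) := by
    intro l _ _ g Z hZ Z2 hZ2
    refine isBC_toFree (X := toFree (X.X.bc (Nag R)) _) (Y := fld Z2) ?_
    refine (isBC_bc X.X (Nag R)).cancel (Z := Z2) ?_
    rw [f2_comp]
    exact hZ.trans hZ2
  let Y2 : GrAlg (k2 k) := Y.bc (k2 k)
  have hY2 : IsBC (ik k) Y Y2 := isBC_bc Y (k2 k)
  obtain ⟨r2, hr2, hr2'⟩ := hC (Nag R) (bcFree X (Nag R) (free_nagR hP X)) (k2 k) (f2 f) (fld Y2)
    (hlift k f Y hY Y2 hY2) (C_up hC X hY hCY hY2)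
  obtain ⟨c, hc, hc'⟩ := exists_coeff (g := f) (x := r2) (by
    intro h0
    apply hr2
    change algebraMap (FractionRing k[X]) (k2 k) (nagMap f r2) = 0
    rw [h0, map_zero])
  refine ⟨c, hc, ?_⟩
  intro l _ _ g Z hgc hZ
  letI := (ik l).toAlgebra
  let Z2 : GrAlg (k2 l) := Z.bc (k2 l)
  have hZ2 : IsBC (ik l) Z Z2 := isBC_bc Z (k2 l)
  have h1 : f2 g r2 ≠ 0 := by
    change algebraMap (FractionRing l[X]) (k2 l) (nagMap g r2) ≠ 0
    exact (_root_.map_ne_zero _).mpr (hc' l g hgc)
  exact C_down hC X hZ hZ2 (hr2' (k2 l) (f2 g) (fld Z2) h1 (hlift l g Z hZ Z2 hZ2))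

end Pool.Agent.Helper190_Proj
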